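import Pool.Agent.Helper26.MCE.GoalsB

/-!
Project MCE (MP_d8224a_co), packet CORE: the numbers.
-/

namespace Pool.Agent.Helper74.MCE

open Finset Pool.Agent.Helper87.MC Pool.Agent.Helper26.MCE

theorem rho_pos {Q : ℕ} (hQ : 0 < (Q : ℝ)) (r i : ℕ) : 0 < rhoC Q r i := by
  unfold rhoC
  positivity

theorem rho_succ (Q r i : ℕ) : rhoC Q r (i + 1) = (Q : ℝ) ^ (5 * r + 20) * rhoC Q r i := by
  unfold rhoC
  rw [mul_add, mul_one, pow_add]
  ring

theorem rho_le {Q r i : ℕ} (hQ : 1 ≤ (Q : ℝ)) (hr : 1 ≤ r) (hi : i ≤ r + 1) :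
    rhoC Q r i ≤ 1 / (Q : ℝ) ^ (r ^ 2 + 10) := by
  unfold rhoC
  rw [div_le_div_iff₀ (by positivity) (by positivity), one_mul, ← pow_add]
  refine pow_le_pow_right₀ hQ ?_
  calc (5 * r + 20) * i + (r ^ 2 + 10) ≤ (5 * r + 20) * (r + 1) + (r ^ 2 + 10) := by
        gcongr
    _ ≤ 90 * r ^ 2 := by nlinarith

theorem sum_rho_le {Q : ℕ} (hQ : 2 ≤ (Q : ℝ)) (r i : ℕ) :
    ∑ l ∈ range (i + 1), rhoC Q r l ≤ 2 * rhoC Q r i := by
  have hQ1 : (1 : ℝ) ≤ Q := by linarith
  have hQ0 : (0 : ℝ) < Q := by linarith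
  induction i with
  | zero =>
    rw [zero_add, sum_range_one]
    have := rho_pos hQ0 r 0
    linarith
  | succ i ih =>
    rw [sum_range_succ]
    have h1 : 2 * rhoC Q r i ≤ rhoC Q r (i + 1) := by
      rw [rho_succ]
      have h2 : (2 : ℝ) ≤ (Q : ℝ) ^ (5 * r + 20) :=
        hQ.trans (le_self_pow₀ hQ1 (by omega))
      have := rho_pos hQ0 r i
      nlinarith
    linarith

section card

variable {G : Type} [AddCommGroup G] [Fintype G]

theorem full_sub (D : Finset G) (K : AddSubgroup G) : full D K ⊆ D := by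
  classical
  intro x hx
  unfold full at hx
  rw [mem_filter] at hx
  exact hx.1

theorem full_mono (D : Finset G) {K K' : AddSubgroup G} (h : K' ≤ K) : full D K ⊆ full D K' := by
  classical
  intro x hx
  unfold full at hx ⊢
  rw [mem_filter] at hx ⊢
  exact ⟨hx.1, fun y hy => hx.2 y (h hy)⟩

theorem lab_sum (D : Finset G) (K : ℕ → AddSubgroup G) (s : ℕ)
    (anti : ∀ i < s, K (i + 1) ≤ K i) :
    ∀ k ≤ s, ∑ j ∈ range k, (lab D K j).card ≤ (full D (K k)).card := by
  classical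
  intro k
  induction k with
  | zero =>
    intro _
    simp
  | succ k ih =>
    intro hk
    rw [sum_range_succ]
    have h1 := ih (by omega)
    have h2 : full D (K k) ⊆ full D (K (k + 1)) := full_mono D (anti k (by omega))
    have h3 : (lab D K k).card = (full D (K (k + 1))).card - (full D (K k)).card := by
      unfold lab
      rw [← card_sdiff_of_subset h2]
    have h4 := card_le_card h2
    omega

theorem card_le_of_full {D : Finset G} {K : AddSubgroup G} {b : G} (hb : b ∈ full D K) :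
    Nat.card K ≤ D.card := by
  classical
  unfold full at hb
  rw [mem_filter] at hb
  have h1 : Nat.card K ≤ Nat.card {x // x ∈ D} :=
    Nat.card_le_card_of_injective (fun h : K => (⟨b + h, hb.2 h h.2⟩ : {x // x ∈ D}))
      (fun h h' e => by
        have := congrArg Subtype.val e
        simp only at this
        exact Subtype.ext (add_left_cancel this))
  rwa [Nat.card_eq_fintype_card, Nat.card_eq_fintype_card, Fintype.card_coe,
    ← Nat.card_eq_fintype_card] at h1

end card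

theorem goalCORE (h1 : G_CHAIN) (h2 : G_TREE) (h3 : G_GOOD) (h4 : G_DET) : G_CORE := by
  classical
  intro G _ _ D Q r hr hQ hn2 hnr hD hper hcard
  have hDpos : 1 ≤ D.card := hD.card_pos
  have hQ1024 : 1024 ≤ Q := by nlinarith
  -- `D ≠ univ`
  have hDuniv : D ≠ univ := by
    intro h
    rw [h, card_univ] at hcard
    have hn : 1 ≤ Fintype.card G := Fintype.card_pos
    have hp : 2 ≤ Q ^ (100 * r ^ 2) := by
      calc 2 ≤ Q := by omega
        _ ≤ Q ^ (100 * r ^ 2) := Nat.le_self_pow (by positivity) _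
    nlinarith
  obtain ⟨s, K, f, B, hs1, hsr, hc⟩ := h1 G D Q r hr hQ hn2 hnr hD hper hcard
  set n : ℕ := Fintype.card G with hn
  set q : ℝ := (Q : ℝ) with hq
  have hq1024 : (1024 : ℝ) ≤ q := by rw [hq]; exact_mod_cast hQ1024
  have hq1 : (1 : ℝ) ≤ q := by linarith
  have hq0 : (0 : ℝ) < q := by linarith
  have hqr : 1024 * ((r : ℝ) + 1) ^ 2 ≤ q := by rw [hq]; exact_mod_cast hQ
  have hr1 : (1 : ℝ) ≤ (r : ℝ) := by exact_mod_cast hr
  have hsr' : (s : ℝ) ≤ (r : ℝ) + 2 := by exact_mod_cast hsr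
  have hs1' : (1 : ℝ) ≤ (s : ℝ) := by exact_mod_cast hs1
  have hρ : ∀ i, 0 < rhoC Q r i := fun i => rho_pos hq0 r i
  have hρh : ∀ i, 0 < rhohC Q r i := fun i => by
    unfold rhohC
    have := hρ i
    positivity
  -- the sum of the densities
  set σ : ℝ := ∑ i ∈ range s, rhoC Q r i with hσ
  have hσ0 : 0 ≤ σ := sum_nonneg fun i _ => (hρ i).le
  have hρle : ∀ i < s, rhoC Q r i ≤ 1 / q ^ (r ^ 2 + 10) := fun i hi =>
    rho_le hq1 hr (by omega)
  have hσle : σ ≤ 1 / q ^ (r ^ 2 + 9) := by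
    calc σ ≤ ∑ _i ∈ range s, 1 / q ^ (r ^ 2 + 10) := sum_le_sum fun i hi =>
          hρle i (mem_range.1 hi)
      _ = s * (1 / q ^ (r ^ 2 + 10)) := by rw [sum_const, card_range, nsmul_eq_mul]
      _ ≤ q * (1 / q ^ (r ^ 2 + 10)) := by
          have : (s : ℝ) ≤ q := by nlinarith
          gcongr
      _ = 1 / q ^ (r ^ 2 + 9) := by
          rw [show r ^ 2 + 10 = (r ^ 2 + 9) + 1 from rfl, pow_succ]
          field_simp
  have hσmul : ∀ x : ℝ, 0 ≤ x → x ≤ q → x * σ ≤ 1 / q ^ (r ^ 2 + 8) := by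
    intro x hx0 hx
    calc x * σ ≤ q * (1 / q ^ (r ^ 2 + 9)) := mul_le_mul hx hσle hσ0 hq0.le
      _ = 1 / q ^ (r ^ 2 + 8) := by
          rw [show r ^ 2 + 9 = (r ^ 2 + 8) + 1 from rfl, pow_succ]
          field_simp
  have hσ8 : σ ≤ 1 / 8 := by
    have h := hσmul 8 (by norm_num) (by linarith)
    have h' : 1 / q ^ (r ^ 2 + 8) ≤ 1 := by
      rw [div_le_one (by positivity)]
      exact one_le_pow₀ hq1
    linarith
  -- the cardinalities
  have hK1 : Nat.card (K 1) ≤ D.card := by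
    obtain ⟨b, hb⟩ := hc.Bne 0 (by omega)
    exact card_le_of_full (hc.Bsub 0 (by omega) b hb).1
  have hlab : ∑ j ∈ range s, (lab D K j).card ≤ D.card :=
    (lab_sum D K s hc.anti s le_rfl).trans (card_le_card (full_sub D _))
  have hrQ : (r + 2) * (8 * (2 * (4 * r)) + 1) + 2 ≤ Q := by
    have e1 : (r + 2) * (8 * (2 * (4 * r)) + 1) + 2 = 64 * r ^ 2 + 129 * r + 4 := by ring
    have e2 : 1024 * (r + 1) ^ 2 = 1024 * r ^ 2 + 2048 * r + 1024 := by ring
    rw [e1]
    rw [e2] at hQ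
    omega
  have hNV : s * (8 * (2 * (4 * r)) + 1) * Nat.card (K 1) +
      2 * ∑ j ∈ range s, (lab D K j).card ≤ Q * D.card := by
    calc s * (8 * (2 * (4 * r)) + 1) * Nat.card (K 1) + 2 * ∑ j ∈ range s, (lab D K j).card
        ≤ (r + 2) * (8 * (2 * (4 * r)) + 1) * D.card + 2 * D.card :=
          Nat.add_le_add (Nat.mul_le_mul (Nat.mul_le_mul_right _ hsr) hK1)
            (Nat.mul_le_mul_left _ hlab)
      _ = ((r + 2) * (8 * (2 * (4 * r)) + 1) + 2) * D.card := by ring
      _ ≤ Q * D.card := Nat.mul_le_mul_right _ hrQ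
  have hN0 : Nat.card (K 0) = n := by
    rw [hc.K0, AddSubgroup.card_top, Nat.card_eq_fintype_card]
  have hDn : D.card ≤ n := card_le_univ D
  obtain ⟨V, hV, c, ty, hF, hVcard⟩ := h2 s (2 * (4 * r)) f (fun i => Nat.card (K i))
    (fun j => (lab D K j).card) (rhoC Q r) hs1 (by omega) hc.fpos hc.dens hρ
    (fun i hi => (hρle i hi).trans (by
      rw [div_le_one (by positivity)]
      exact one_le_pow₀ hq1))
    (fun i hi => AddSubgroup.card_le_of_le (hc.anti i hi)) Nat.card_pos (by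
      rw [hN0, hc.f0]
      have e1 : ((s * (8 * (2 * (4 * r)) + 1) * Nat.card (K 1) +
          2 * ∑ j ∈ range s, (lab D K j).card : ℕ) : ℝ) ≤ q * D.card := by
        rw [hq]
        exact_mod_cast hNV
      have e2 : rhoC Q r 0 = 1 / q ^ (90 * r ^ 2) := by
        unfold rhoC
        rw [mul_zero, pow_zero]
      have e3 : (D.card : ℝ) ^ 2 * q ^ (100 * r ^ 2) ≤ n := by
        rw [hq]
        exact_mod_cast hcard
      rw [e2, one_div, inv_mul_eq_div, le_div_iff₀ (by positivity)]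
      calc ((s * (8 * (2 * (4 * r)) + 1) * Nat.card (K 1) +
          2 * ∑ j ∈ range s, (lab D K j).card : ℕ) : ℝ) * D.card * q ^ (90 * r ^ 2)
          ≤ (q * D.card) * D.card * q ^ (90 * r ^ 2) := by gcongr
        _ = (D.card : ℝ) ^ 2 * q ^ (90 * r ^ 2 + 1) := by ring
        _ ≤ (D.card : ℝ) ^ 2 * q ^ (100 * r ^ 2) :=
            mul_le_mul_of_nonneg_left (pow_le_pow_right₀ hq1 (by nlinarith)) (by positivity)
        _ ≤ n := e3)
  have hVle : Fintype.card V ≤ Q * D.card := hVcard.trans hNV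
  have hVr : (Fintype.card V : ℝ) ≤ q * n := by
    have : Fintype.card V ≤ Q * n := hVle.trans (Nat.mul_le_mul_left _ hDn)
    rw [hq]
    exact_mod_cast this
  have hnq : (n : ℝ) ≤ q ^ (r ^ 3) := by
    rw [hq]
    exact_mod_cast hnr
  have hsq : (s : ℝ) ≤ q := by nlinarith
  have hn0 : (0 : ℝ) ≤ (n : ℝ) := Nat.cast_nonneg _
  have hthird : ∀ x : ℝ, x * q ≤ 1 → x < 1 / 3 := by
    intro x hx
    by_contra hx'
    push Not at hx'
    nlinarith
  -- the good point
  have hgood : ∃ ω : Fin s × V → G, Good D K B (Q : ℝ) c ty f (fun i => Nat.card (K i))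
      (rhoC Q r) ω := by
    refine h3 G s V D K f B (rhoC Q r) (rhohC Q r) (Q : ℝ) ((Q : ℝ) ^ (4 * r + 7)) c ty (4 * r)
      (fun j => (lab D K j).card) (8 * s / q ^ 3) hc hF hρ hρh (by positivity) hq1 ?_ ?_ ?_ ?_
      ?_ ?_
    · push_cast
      nlinarith
    · linarith
    · -- the sums
      have a1 : ∀ i ∈ range s, 2 * (∑ l ∈ range (i + 1), rhoC Q r l) / rhohC Q r i ≤
          4 / q ^ 3 := by
        intro i _
        unfold rhohC
        have hp := hρ i
        have h := sum_rho_le (Q := Q) (by rw [← hq]; linarith) r i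
        rw [div_le_div_iff₀ (by positivity) (by positivity)]
        have h5 : 0 ≤ q ^ 3 := by positivity
        rw [← hq]
        nlinarith
      have a2 : ∀ i ∈ Ico 1 s, 2 * (Q : ℝ) ^ (4 * r + 7) * (∑ l ∈ range i, rhoC Q r l) /
          rhoC Q r i ≤ 4 / q ^ 3 := by
        intro i hi
        obtain ⟨j, rfl⟩ : ∃ j, i = j + 1 := ⟨i - 1, by have := (mem_Ico.1 hi).1; omega⟩
        have hp := hρ j
        have h := sum_rho_le (Q := Q) (by rw [← hq]; linarith) r j
        rw [rho_succ, div_le_div_iff₀ (by positivity) (by positivity), ← hq]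
        have h6 : q ^ (4 * r + 7) * q ^ 3 ≤ q ^ (5 * r + 20) := by
          rw [← pow_add]
          exact pow_le_pow_right₀ hq1 (by omega)
        calc 2 * q ^ (4 * r + 7) * (∑ l ∈ range (j + 1), rhoC Q r l) * q ^ 3
            ≤ 2 * q ^ (4 * r + 7) * (2 * rhoC Q r j) * q ^ 3 := by gcongr
          _ = 4 * (q ^ (4 * r + 7) * q ^ 3 * rhoC Q r j) := by ring
          _ ≤ 4 * (q ^ (5 * r + 20) * rhoC Q r j) := by gcongr
      calc ∑ i ∈ range s, 2 * (∑ l ∈ range (i + 1), rhoC Q r l) / rhohC Q r i +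
            ∑ i ∈ Ico 1 s, 2 * (Q : ℝ) ^ (4 * r + 7) * (∑ l ∈ range i, rhoC Q r l) / rhoC Q r i
          ≤ ∑ _i ∈ range s, 4 / q ^ 3 + ∑ _i ∈ Ico 1 s, 4 / q ^ 3 :=
            add_le_add (sum_le_sum a1) (sum_le_sum a2)
        _ ≤ s * (4 / q ^ 3) + s * (4 / q ^ 3) := by
            rw [sum_const, sum_const, card_range, Nat.card_Ico, nsmul_eq_mul, nsmul_eq_mul]
            have : ((s - 1 : ℕ) : ℝ) ≤ s := by exact_mod_cast Nat.sub_le s 1
            gcongr
        _ = 8 * s / q ^ 3 := by ring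
    · apply hthird
      have e : (s : ℝ) * (8 * (8 * s / q ^ 3)) * q = 64 * s ^ 2 / q ^ 2 := by
        field_simp
        ring
      rw [e, div_le_one (by positivity)]
      have h64 : 64 * (s : ℝ) ^ 2 ≤ q := by nlinarith
      nlinarith
    · apply hthird
      have h32 : 4 * ((2 * (4 * r) : ℕ) : ℝ) * σ ≤ 1 / q ^ (r ^ 2 + 8) := by
        refine hσmul _ (by positivity) ?_
        push_cast
        nlinarith
      have hpow : (4 * ((2 * (4 * r) : ℕ) : ℝ) * σ) ^ (2 * (4 * r)) ≤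
          (1 / q ^ (r ^ 2 + 8)) ^ (2 * (4 * r)) :=
        pow_le_pow_left₀ (by positivity) h32 _
      rw [div_pow, one_pow, ← pow_mul] at hpow
      calc (s : ℝ) * Fintype.card V * n * (4 * ((2 * (4 * r) : ℕ) : ℝ) * σ) ^ (2 * (4 * r)) * q
          ≤ q * (q * q ^ (r ^ 3)) * q ^ (r ^ 3) * (1 / q ^ ((r ^ 2 + 8) * (2 * (4 * r)))) * q := by
            have hV' : (Fintype.card V : ℝ) ≤ q * q ^ (r ^ 3) := hVr.trans (by gcongr)
            gcongr
        _ = q ^ (2 * r ^ 3 + 3) / q ^ ((r ^ 2 + 8) * (2 * (4 * r))) := by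
            rw [show 2 * r ^ 3 + 3 = r ^ 3 + r ^ 3 + 3 by ring, pow_add, pow_add]
            ring
        _ ≤ 1 := by
            rw [div_le_one (by positivity)]
            refine pow_le_pow_right₀ hq1 ?_
            have : (r ^ 2 + 8) * (2 * (4 * r)) = 8 * r ^ 3 + 64 * r := by ring
            rw [this]
            have := Nat.zero_le (r ^ 3)
            omega
    · apply hthird
      have h256 : 256 * σ ≤ 1 / q ^ (r ^ 2 + 8) := hσmul _ (by norm_num) (by linarith)
      have hpow : (256 * σ) ^ (4 * r) ≤ (1 / q ^ (r ^ 2 + 8)) ^ (4 * r) :=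
        pow_le_pow_left₀ (by positivity) h256 _
      rw [div_pow, one_pow, ← pow_mul] at hpow
      have hDq : (D.card : ℝ) ≤ q ^ (r ^ 3) := by
        have : (D.card : ℝ) ≤ n := by exact_mod_cast hDn
        exact this.trans hnq
      calc (s : ℝ) * D.card * (2 * (256 * σ) ^ (4 * r)) * q
          ≤ q * q ^ (r ^ 3) * (q * (1 / q ^ ((r ^ 2 + 8) * (4 * r)))) * q := by
            have h2q : (2 : ℝ) ≤ q := by linarith
            gcongr
        _ = q ^ (r ^ 3 + 3) / q ^ ((r ^ 2 + 8) * (4 * r)) := by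
            rw [pow_add]
            ring
        _ ≤ 1 := by
            rw [div_le_one (by positivity)]
            refine pow_le_pow_right₀ hq1 ?_
            have : (r ^ 2 + 8) * (4 * r) = 4 * r ^ 3 + 32 * r := by ring
            rw [this]
            have := Nat.zero_le (r ^ 3)
            omega
  obtain ⟨ω, hω⟩ := hgood
  refine h4 G s V D K f B (rhoC Q r) (rhohC Q r) (Q : ℝ) ((Q : ℝ) ^ (4 * r + 7)) c ty
    (2 * (4 * r)) ω hc hF hρ (by rw [← hq]; linarith) hσ8 ?_ hD hDuniv hs1 hω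
  intro i hi
  rw [← hq]
  calc 2 * q * rhoC Q r i ≤ 2 * q * (1 / q ^ (r ^ 2 + 10)) := by
        have := hρle i hi
        gcongr
    _ ≤ q * q * (1 / q ^ (r ^ 2 + 10)) := by
        have h2q : (2 : ℝ) ≤ q := by linarith
        gcongr
    _ = q ^ 2 / q ^ (r ^ 2 + 10) := by ring
    _ ≤ 1 := by
        rw [div_le_one (by positivity)]
        exact pow_le_pow_right₀ hq1 (by omega)

end Pool.Agent.Helper74.MCE
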